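import Pool.Agent.helper37.CZ.Spec

set_option autoImplicit false

open scoped Matrix Topology ComplexConjugate
open Filter

namespace Pool.Agent.CZ

/-- equivalence of idempotent matrices -/
def DMP_eqv {A : Type} [Ring A] {n m : ℕ} (e : Matrix (Fin n) (Fin n) A) (f : Matrix (Fin m) (Fin m) A) :
    Prop :=
  ∃ (x : Matrix (Fin n) (Fin m) A) (y : Matrix (Fin m) (Fin n) A), x * y = e ∧ y * x = f

theorem DMP_symm {A : Type} [Ring A] {n m : ℕ} {e : Matrix (Fin n) (Fin n) A}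
    {f : Matrix (Fin m) (Fin m) A} (h : DMP_eqv e f) : DMP_eqv f e := by
  obtain ⟨x, y, h1, h2⟩ := h
  exact ⟨y, x, h2, h1⟩

theorem DMP_trans {A : Type} [Ring A] {n m k : ℕ} {e : Matrix (Fin n) (Fin n) A}
    {f : Matrix (Fin m) (Fin m) A} {g : Matrix (Fin k) (Fin k) A} (he : e * e = e) (hg : g * g = g)
    (h : DMP_eqv e f) (h' : DMP_eqv f g) : DMP_eqv e g := by
  obtain ⟨x, y, h1, h2⟩ := h
  obtain ⟨x', y', h3, h4⟩ := h'
  refine ⟨x * x', y' * y, ?_, ?_⟩
  · calc x * x' * (y' * y) = x * (x' * y') * y := by simp only [Matrix.mul_assoc]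
      _ = x * (y * x) * y := by rw [h3, h2]
      _ = (x * y) * (x * y) := by simp only [Matrix.mul_assoc]
      _ = e := by rw [h1, he]
  · calc y' * y * (x * x') = y' * (y * x) * x' := by simp only [Matrix.mul_assoc]
      _ = y' * (x' * y') * x' := by rw [h3, h2]
      _ = (y' * x') * (y' * x') := by simp only [Matrix.mul_assoc]
      _ = g := by rw [h4, hg]

/-- normalised equivalence -/
theorem DMP_norm {A : Type} [Ring A] {n m : ℕ} {e : Matrix (Fin n) (Fin n) A}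
    {f : Matrix (Fin m) (Fin m) A} (he : e * e = e) (hf : f * f = f) (h : DMP_eqv e f) :
    ∃ (x : Matrix (Fin n) (Fin m) A) (y : Matrix (Fin m) (Fin n) A), x * y = e ∧ y * x = f ∧
      e * x = x ∧ y * e = y := by
  obtain ⟨x, y, h1, h2⟩ := h
  refine ⟨e * x * f, f * y * e, ?_, ?_, ?_, ?_⟩
  · calc e * x * f * (f * y * e) = e * (x * (f * f) * y) * e := by simp only [Matrix.mul_assoc]
      _ = e * (x * (y * x) * y) * e := by rw [hf, h2]
      _ = e * ((x * y) * (x * y)) * e := by simp only [Matrix.mul_assoc]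
      _ = e := by rw [h1, he, he, he]
  · calc f * y * e * (e * x * f) = f * (y * (e * e) * x) * f := by simp only [Matrix.mul_assoc]
      _ = f * (y * (x * y) * x) * f := by rw [he, h1]
      _ = f * ((y * x) * (y * x)) * f := by simp only [Matrix.mul_assoc]
      _ = f := by rw [h2, hf, hf, hf]
  · calc e * (e * x * f) = (e * e) * x * f := by simp only [Matrix.mul_assoc]
      _ = e * x * f := by rw [he]
  · calc f * y * e * e = f * y * (e * e) := by simp only [Matrix.mul_assoc]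
      _ = f * y * e := by rw [he]

/-- the trace modulo coboundaries -/
noncomputable def DMP_T {X : Type} [TopologicalSpace X] [CompactSpace X] (α : X ≃ₜ X) {A : Type}
    [CStarAlgebra A] (c : ℤ → A →ₗ[ℂ] C(X, ℂ)) {n : ℕ} (e : Matrix (Fin n) (Fin n) A) :
    C(X, ℂ) ⧸ Bd α :=
  QuotientAddGroup.mk (∑ i, c 0 (e i i))

theorem DMP_tr (hTRC : TRC_stmt) {X : Type} [TopologicalSpace X] [CompactSpace X] {α : X ≃ₜ X}
    {A : Type} [CStarAlgebra A] {ι : C(X, ℂ) →⋆ₐ[ℂ] A} {u : unitary A} {c : ℤ → A →ₗ[ℂ] C(X, ℂ)}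
    (hc : Cov α ι u c) {n m : ℕ} {x : Matrix (Fin n) (Fin m) A} {y : Matrix (Fin m) (Fin n) A}
    (hx : SmM ι u x) (hy : SmM ι u y) : DMP_T α c (x * y) = DMP_T α c (y * x) := by
  unfold DMP_T
  rw [QuotientAddGroup.eq_iff_sub_mem]
  have h1 : ∑ i, c 0 ((x * y) i i) - ∑ j, c 0 ((y * x) j j) =
      ∑ i, ∑ j, (c 0 (x i j * y j i) - c 0 (y j i * x i j)) := by
    simp only [Matrix.mul_apply, map_sum, Finset.sum_sub_distrib]
    congr 1
    exact Finset.sum_comm
  rw [h1]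
  exact AddSubgroup.sum_mem _ fun i _ => AddSubgroup.sum_mem _ fun j _ =>
    hTRC X α A ι u c hc _ _ (hx i j) (hy j i)

theorem DMP_inv (hEQV : EQV_stmt) (hTRC : TRC_stmt) {X : Type} [TopologicalSpace X] [CompactSpace X]
    {α : X ≃ₜ X} {A : Type} [CStarAlgebra A] {ι : C(X, ℂ) →⋆ₐ[ℂ] A} {u : unitary A}
    {c : ℤ → A →ₗ[ℂ] C(X, ℂ)} (hc : Cov α ι u c) {n m : ℕ} {e : Matrix (Fin n) (Fin n) A}
    {f : Matrix (Fin m) (Fin m) A} (he : SmM ι u e) (hf : SmM ι u f) (hee : e * e = e)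
    (hff : f * f = f) (h : DMP_eqv e f) : DMP_T α c e = DMP_T α c f := by
  obtain ⟨x, y, h1, h2⟩ := h
  obtain ⟨x', y', hx, hy, h3, h4⟩ := hEQV X α A ι u c hc n m e f x y he hf hee hff h1 h2
  rw [← h3, ← h4]
  exact DMP_tr hTRC hc hx hy

/-- block diagonal sum -/
def DMP_sum {A : Type} [Ring A] {n m : ℕ} (e : Matrix (Fin n) (Fin n) A)
    (f : Matrix (Fin m) (Fin m) A) : Matrix (Fin (n + m)) (Fin (n + m)) A :=
  (Matrix.fromBlocks e 0 0 f).submatrix finSumFinEquiv.symm finSumFinEquiv.symm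

theorem DMP_sum_eqv {A : Type} [Ring A] {n m k : ℕ} {e f : Matrix (Fin n) (Fin n) A}
    {e' : Matrix (Fin m) (Fin m) A} {f' : Matrix (Fin k) (Fin k) A} (he : e * e = e) (hf : f * f = f)
    (he' : e' * e' = e') (hf' : f' * f' = f') (hef : e * f = 0) (hfe : f * e = 0)
    (h : DMP_eqv e e') (h' : DMP_eqv f f') : DMP_eqv (e + f) (DMP_sum e' f') := by
  obtain ⟨x, y, h1, h2, h3, h4⟩ := DMP_norm he he' h
  obtain ⟨x', y', h1', h2', h3', h4'⟩ := DMP_norm hf hf' h'
  refine ⟨(Matrix.fromCols x x').submatrix id finSumFinEquiv.symm,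
    (Matrix.fromRows y y').submatrix finSumFinEquiv.symm id, ?_, ?_⟩
  · rw [Matrix.submatrix_mul_equiv, Matrix.fromCols_mul_fromRows, h1, h1']
    simp
  · have h5 : y * x' = 0 := by
      rw [← h4, ← h3']
      calc y * e * (f * x') = y * (e * f) * x' := by simp only [Matrix.mul_assoc]
        _ = 0 := by rw [hef]; simp
    have h6 : y' * x = 0 := by
      rw [← h4', ← h3]
      calc y' * f * (e * x) = y' * (f * e) * x := by simp only [Matrix.mul_assoc]
        _ = 0 := by rw [hfe]; simp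
    rw [← Matrix.submatrix_mul _ _ _ _ _ Function.bijective_id, Matrix.fromRows_mul_fromCols, h2, h2', h5, h6]
    rfl

theorem DMP_sum_idem {A : Type} [Ring A] {m k : ℕ} {e' : Matrix (Fin m) (Fin m) A}
    {f' : Matrix (Fin k) (Fin k) A} (he' : e' * e' = e') (hf' : f' * f' = f') :
    DMP_sum e' f' * DMP_sum e' f' = DMP_sum e' f' := by
  unfold DMP_sum
  rw [Matrix.submatrix_mul_equiv, Matrix.fromBlocks_multiply, he', hf']
  simp

theorem DMP_sum_T {X : Type} [TopologicalSpace X] [CompactSpace X] (α : X ≃ₜ X) {A : Type}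
    [CStarAlgebra A] (c : ℤ → A →ₗ[ℂ] C(X, ℂ)) {m k : ℕ} (e' : Matrix (Fin m) (Fin m) A)
    (f' : Matrix (Fin k) (Fin k) A) :
    DMP_T α c (DMP_sum e' f') = DMP_T α c e' + DMP_T α c f' := by
  unfold DMP_T
  rw [← QuotientAddGroup.mk_add]
  congr 1
  have h1 : ∑ i, c 0 (DMP_sum e' f' i i) =
      ∑ s : Fin m ⊕ Fin k, c 0 (Matrix.fromBlocks e' 0 0 f' s s) := by
    unfold DMP_sum
    simp only [Matrix.submatrix_apply]
    exact Equiv.sum_comp finSumFinEquiv.symm (fun s => c 0 (Matrix.fromBlocks e' 0 0 f' s s))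
  rw [h1, Fintype.sum_sum_type]
  simp

theorem DMP_sum_sm (hSMA : SMA_stmt) {X : Type} [TopologicalSpace X] [CompactSpace X] {A : Type}
    [CStarAlgebra A] {ι : C(X, ℂ) →⋆ₐ[ℂ] A} {u : unitary A} {m k : ℕ} {e' : Matrix (Fin m) (Fin m) A}
    {f' : Matrix (Fin k) (Fin k) A} (he' : SmM ι u e') (hf' : SmM ι u f') :
    SmM ι u (DMP_sum e' f') := by
  intro i j
  have h0 : Sm ι u 0 := (hSMA X A ι u).2.1
  unfold DMP_sum
  rw [Matrix.submatrix_apply]
  rcases finSumFinEquiv.symm i with a | a <;> rcases finSumFinEquiv.symm j with b | b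
  · exact he' a b
  · exact h0
  · exact h0
  · exact hf' a b

theorem DMP (h1 : SMA_stmt) (h2 : KSM_stmt) (h3 : EQV_stmt) (h4 : TRC_stmt) (h5 : SMM_stmt) :
    DMP_stmt := by
  intro X _ _ α A _ ι u c hc
  choose q hqn hqs hqe hqc using h2 X α A ι u c hc
  have hqe' : ∀ p : IdemMat A, DMP_eqv p.e (q p).e := hqe
  have hrel : ∀ z ∈ AddSubgroup.closure (K0Rel A),
      FreeAbelianGroup.lift (fun p : IdemMat A => DMP_T α c (q p).e) z = 0 := by
    intro z hz
    have h6 : AddSubgroup.closure (K0Rel A) ≤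
        (FreeAbelianGroup.lift (fun p : IdemMat A => DMP_T α c (q p).e)).ker := by
      rw [AddSubgroup.closure_le]
      rintro z (⟨p, p', hpp, rfl⟩ | ⟨n, e, f, he, hf, hs, hef, hfe, rfl⟩)
      · change FreeAbelianGroup.lift (fun p : IdemMat A => DMP_T α c (q p).e) _ = 0
        rw [map_sub, FreeAbelianGroup.lift_apply_of, FreeAbelianGroup.lift_apply_of, sub_eq_zero]
        have h7 : DMP_eqv (q p).e (q p').e :=
          DMP_trans (q p).idem (q p').idem (DMP_symm (hqe' p))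
            (DMP_trans p.idem (q p').idem hpp (hqe' p'))
        exact DMP_inv h3 h4 hc (hqs p) (hqs p') (q p).idem (q p').idem h7
      · change FreeAbelianGroup.lift (fun p : IdemMat A => DMP_T α c (q p).e) _ = 0
        rw [map_sub, map_sub, FreeAbelianGroup.lift_apply_of, FreeAbelianGroup.lift_apply_of,
          FreeAbelianGroup.lift_apply_of, sub_sub, sub_eq_zero, ← DMP_sum_T]
        have h7 : DMP_eqv (e + f) (DMP_sum (q ⟨n, e, he⟩).e (q ⟨n, f, hf⟩).e) :=
          DMP_sum_eqv he hf (q ⟨n, e, he⟩).idem (q ⟨n, f, hf⟩).idem hef hfe (hqe' ⟨n, e, he⟩)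
            (hqe' ⟨n, f, hf⟩)
        have h8 : DMP_eqv (q ⟨n, e + f, hs⟩).e (DMP_sum (q ⟨n, e, he⟩).e (q ⟨n, f, hf⟩).e) :=
          DMP_trans (q ⟨n, e + f, hs⟩).idem
            (DMP_sum_idem (q ⟨n, e, he⟩).idem (q ⟨n, f, hf⟩).idem)
            (DMP_symm (hqe' ⟨n, e + f, hs⟩)) h7
        exact DMP_inv h3 h4 hc (hqs _) (DMP_sum_sm h1 (hqs _) (hqs _)) (q ⟨n, e + f, hs⟩).idem
          (DMP_sum_idem (q ⟨n, e, he⟩).idem (q ⟨n, f, hf⟩).idem) h8
    exact h6 hz
  refine ⟨QuotientAddGroup.lift _ (FreeAbelianGroup.lift (fun p : IdemMat A => DMP_T α c (q p).e)) hrel,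
    ?_⟩
  intro p hp
  have h6 : QuotientAddGroup.lift _ (FreeAbelianGroup.lift (fun p : IdemMat A => DMP_T α c (q p).e)) hrel
      (cls p) = DMP_T α c (q p).e := by
    unfold cls
    rw [QuotientAddGroup.lift_mk, FreeAbelianGroup.lift_apply_of]
  rw [h6]
  exact (DMP_inv h3 h4 hc hp (hqs p) p.idem (q p).idem (hqe' p)).symm

end Pool.Agent.CZ
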